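import Pool.Agent.W345.GK.TF

set_option autoImplicit false

open Polynomial Finset

namespace Pool.Agent.W236.GK

open Pool.Agent.W345.GK

theorem mon_monic {k : Type} [Field k] {n : ℕ} (c : Fin n → k) : (mon c).Monic := by
  unfold mon
  exact Polynomial.monic_X_pow_add (Polynomial.degree_sum_fin_lt c)

theorem mon_degree {k : Type} [Field k] {n : ℕ} (c : Fin n → k) : (mon c).degree = n := by
  unfold mon
  rw [Polynomial.degree_add_eq_left_of_degree_lt, Polynomial.degree_X_pow]
  rw [Polynomial.degree_X_pow]
  exact Polynomial.degree_sum_fin_lt c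

theorem mon_coeff {k : Type} [Field k] {n : ℕ} (c : Fin n → k) (i : Fin n) :
    (mon c).coeff i = c i := by
  classical
  unfold mon
  rw [coeff_add, coeff_X_pow, if_neg (by have := i.2; omega), zero_add, finsetSum_coeff]
  simp_rw [coeff_C_mul, coeff_X_pow]
  rw [Finset.sum_eq_single i]
  · simp
  · intro j _ hj
    rw [if_neg (fun h => hj (Fin.ext h.symm)), mul_zero]
  · intro h; exact absurd (Finset.mem_univ _) h

/-- powers of the companion matrix applied to the first basis vector -/
theorem comp_pow {k : Type} [Field k] {m : ℕ} (c : Fin (m + 1) → k) (i : ℕ) (hi : i < m + 1) :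
    ((comp c) ^ i).mulVec (Pi.single 0 1) = Pi.single ⟨i, hi⟩ 1 := by
  induction i with
  | zero => rw [pow_zero, Matrix.one_mulVec]; rfl
  | succ i ih =>
    rw [pow_succ', ← Matrix.mulVec_mulVec, ih (by omega), Matrix.mulVec_single_one]
    ext j
    rw [Matrix.col_apply]
    unfold Pool.Agent.W345.GK.comp
    rw [if_neg (by simp only; omega), Pi.single_apply]
    congr 1
    rw [Fin.ext_iff]

theorem comp_pow_top {k : Type} [Field k] {m : ℕ} (c : Fin (m + 1) → k) :
    ((comp c) ^ (m + 1)).mulVec (Pi.single 0 1) = -c := by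
  rw [pow_succ', ← Matrix.mulVec_mulVec, comp_pow c m (by omega), Matrix.mulVec_single_one]
  ext j
  rw [Matrix.col_apply]
  unfold Pool.Agent.W345.GK.comp
  simp

theorem sum_single {k : Type} [Field k] {n : ℕ} (f : Fin n → k) :
    ∑ i : Fin n, f i • (Pi.single i (1 : k) : Fin n → k) = f := by
  ext j
  rw [Finset.sum_apply, Finset.sum_eq_single j]
  · simp
  · intro i _ hij
    simp [Pi.single_apply, hij.symm]
  · intro h; exact absurd (Finset.mem_univ _) h

theorem charpoly_comp {k : Type} [Field k] {n : ℕ} (c : Fin n → k) :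
    (comp c).charpoly = mon c := by
  classical
  rcases n with _ | m
  · rw [Matrix.charpoly_isEmpty]
    simp [mon]
  · rw [← sub_eq_zero]
    set p := (comp c).charpoly - mon c with hp
    have hdeg : p.degree < ((m + 1 : ℕ) : WithBot ℕ) := by
      have h1 : (comp c).charpoly.degree = ((m + 1 : ℕ) : WithBot ℕ) := by
        rw [Matrix.charpoly_degree_eq_dim, Fintype.card_fin]
      rw [← h1]
      apply Polynomial.degree_sub_lt_left
      · rw [h1, mon_degree]
      · exact (Matrix.charpoly_monic _).ne_zero
      · rw [(Matrix.charpoly_monic _).leadingCoeff, (mon_monic c).leadingCoeff]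
    have hmon : (aeval (comp c) (mon c)).mulVec (Pi.single 0 1) = 0 := by
      have h1 : aeval (comp c) (mon c) = (comp c) ^ (m + 1) +
          ∑ i : Fin (m + 1), c i • (comp c) ^ (i : ℕ) := by
        unfold mon
        rw [map_add, map_pow, aeval_X, map_sum]
        congr 1
        apply Finset.sum_congr rfl
        intro i _
        rw [map_mul, aeval_C, map_pow, aeval_X, Algebra.smul_def]
      rw [h1, Matrix.add_mulVec, comp_pow_top, Matrix.sum_mulVec]
      have h2 : ∀ i : Fin (m + 1), (c i • (comp c) ^ (i : ℕ)).mulVec (Pi.single 0 1) =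
          c i • (Pi.single i (1 : k) : Fin (m + 1) → k) := by
        intro i
        rw [Matrix.smul_mulVec, comp_pow c i i.2]
      simp_rw [h2]
      rw [sum_single]
      simp
    have hpz : (aeval (comp c) p).mulVec (Pi.single 0 1) = 0 := by
      rw [hp, map_sub, Matrix.aeval_self_charpoly, zero_sub, Matrix.neg_mulVec, hmon, neg_zero]
    have hpe : aeval (comp c) p = ∑ i : Fin (m + 1), p.coeff i • (comp c) ^ (i : ℕ) := by
      rw [aeval_eq_sum_range' (n := m + 1) (by
        rcases eq_or_ne p 0 with h0 | h0
        · rw [h0]; simp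
        · exact (Polynomial.natDegree_lt_iff_degree_lt h0).2 hdeg)]
      rw [Finset.sum_range]
    rw [hpe, Matrix.sum_mulVec] at hpz
    have h2 : ∀ i : Fin (m + 1), (p.coeff i • (comp c) ^ (i : ℕ)).mulVec (Pi.single 0 1) =
        p.coeff i • (Pi.single i (1 : k) : Fin (m + 1) → k) := by
      intro i
      rw [Matrix.smul_mulVec, comp_pow c i i.2]
    simp_rw [h2] at hpz
    rw [sum_single (fun i : Fin (m + 1) => p.coeff i)] at hpz
    ext j
    rw [coeff_zero]
    by_cases hj : j < m + 1
    · exact congrFun hpz ⟨j, hj⟩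
    · exact coeff_eq_zero_of_degree_lt (lt_of_lt_of_le hdeg (by exact_mod_cast (not_lt.1 hj)))

/-- the determinant of `p(A)` -/
theorem det_aeval {K : Type} [Field K] {n : ℕ} (A : Matrix (Fin n) (Fin n) K) (x : Fin n → K)
    (hx : A.charpoly = ∏ j, (X - C (x j))) (p : K[X]) (hp : p.Splits) :
    (aeval A p).det = ∏ j, p.eval (x j) := by
  let F : K[X] →* K := (Matrix.detMonoidHom : Matrix (Fin n) (Fin n) K →* K).comp
    ((aeval A : K[X] →ₐ[K] Matrix (Fin n) (Fin n) K) : K[X] →* Matrix (Fin n) (Fin n) K)
  let G : K[X] →* K :=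
    { toFun := fun p => ∏ j, p.eval (x j)
      map_one' := by simp
      map_mul' := fun p q => by simp [Finset.prod_mul_distrib] }
  have hF : ∀ p, F p = (aeval A p).det := fun p => rfl
  have hG : ∀ p, G p = ∏ j, p.eval (x j) := fun p => rfl
  have hC : ∀ a : K, F (C a) = G (C a) := by
    intro a
    rw [hF, hG, aeval_C]
    simp [Matrix.algebraMap_eq_diagonal, Matrix.det_diagonal]
  have hX : ∀ b : K, F (X - C b) = G (X - C b) := by
    intro b
    rw [hF, hG]
    have h1 : aeval A (X - C b) = -(Matrix.scalar (Fin n) b - A) := by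
      rw [map_sub, aeval_X, aeval_C, neg_sub]
      rfl
    rw [h1, Matrix.det_neg, ← Matrix.eval_charpoly, hx, eval_prod, Fintype.card_fin]
    have h2 : ((-1 : K)) ^ n = ∏ j : Fin n, (-1 : K) := by simp
    rw [h2, ← Finset.prod_mul_distrib]
    apply Finset.prod_congr rfl
    intro j _
    simp
  have hM : ∀ s : Multiset K, F (s.map fun b => X - C b).prod = G (s.map fun b => X - C b).prod := by
    intro s
    induction s using Multiset.induction_on with
    | empty => simp
    | cons a s ih => rw [Multiset.map_cons, Multiset.prod_cons, map_mul, map_mul, ih, hX]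
  rw [← hF, ← hG, hp.eq_prod_roots, map_mul, map_mul, hC, hM]

end Pool.Agent.W236.GK
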