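import Pool.Agent.W236.GK.TA10a
import Pool.Agent.W236.GK.TA10b

set_option autoImplicit false

open Polynomial Finset

namespace Pool.Agent.W236.GK

open Pool.Agent.W345.GK

/-- the roots and the elementary symmetric polynomials -/
theorem vieta {K : Type} [Field K] {n : ℕ} (x : Fin n → K) (c : Fin n → K)
    (hx : mon c = ∏ j, (X - C (x j))) (i : Fin n) :
    MvPolynomial.aeval x (MvPolynomial.esymm (Fin n) K ((i : ℕ) + 1)) =
      (-1) ^ ((i : ℕ) + 1) * c (Fin.rev i) := by
  rw [MvPolynomial.aeval_esymm_eq_multiset_esymm]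
  have h1 : ∏ j, (X - C (x j)) = ((Finset.univ.val.map x).map fun t => X - C t).prod := by
    rw [Multiset.map_map]
    rfl
  have hcard : Multiset.card (Finset.univ.val.map x) = n := by simp
  have h2 := Multiset.prod_X_sub_C_coeff (Finset.univ.val.map x) (k := (Fin.rev i : ℕ)) (by
    rw [hcard]; exact (Fin.rev i).2.le)
  rw [← h1, ← hx, mon_coeff, hcard] at h2
  have h3 : n - (Fin.rev i : ℕ) = (i : ℕ) + 1 := by
    rw [Fin.val_rev]
    have := i.2
    omega
  rw [h3] at h2
  rw [h2, ← mul_assoc, ← pow_add, ← two_mul, pow_mul]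
  simp

theorem map_comp {k K : Type} [Field k] [Field K] [Algebra k K] {n : ℕ} (c : Fin n → k) :
    (Pool.Agent.W345.GK.comp c).map (algebraMap k K) =
      Pool.Agent.W345.GK.comp (fun i => algebraMap k K (c i)) := by
  ext i j
  rw [Matrix.map_apply]
  unfold Pool.Agent.W345.GK.comp
  split_ifs <;> simp

/-- over an algebraically closed field -/
theorem res_closed {K : Type} [Field K] [IsAlgClosed K] {n : ℕ} (c : Fin n → K)
    (R : K[X]) (g : MvPolynomial (Fin n) K) (hg : ee g = PR n R) :
    (aeval (Pool.Agent.W345.GK.comp c) R).det =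
      MvPolynomial.eval (fun i : Fin n => ((-1) ^ ((i : ℕ) + 1) * c (Fin.rev i))) g := by
  classical
  have hs : (mon c).Splits := IsAlgClosed.splits _
  obtain ⟨x, hx⟩ : ∃ x : Fin n → K, mon c = ∏ j, (X - C (x j)) := by
    have h1 := hs.eq_prod_roots_of_monic (mon_monic c)
    have hcard : (mon c).roots.card = n := by
      rw [← hs.natDegree_eq_card_roots]
      exact natDegree_eq_of_degree_eq_some (mon_degree c)
    obtain ⟨l, hl⟩ := Quot.exists_rep (mon c).roots
    have hl' : ((l : List K) : Multiset K) = (mon c).roots := hl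
    have hlen : l.length = n := by
      rw [← hcard, ← hl']
      rfl
    subst hlen
    refine ⟨fun j => l.get j, ?_⟩
    rw [h1, ← hl', Multiset.map_coe, Multiset.prod_coe, ← List.prod_ofFn]
    congr 1
    apply List.ext_getElem <;> simp
  rw [det_aeval _ x (by rw [charpoly_comp, hx]) R (IsAlgClosed.splits _)]
  have h2 : MvPolynomial.aeval x (ee g) = MvPolynomial.aeval x (PR n R) := by rw [hg]
  have h3 : MvPolynomial.aeval x (PR n R) = ∏ j, R.eval (x j) := by
    unfold PR
    rw [map_prod]
    apply Finset.prod_congr rfl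
    intro j _
    rw [← Polynomial.aeval_algHom_apply, MvPolynomial.aeval_X]
    rfl
  have h4 : MvPolynomial.aeval x (ee g) =
      MvPolynomial.eval (fun i : Fin n => ((-1) ^ ((i : ℕ) + 1) * c (Fin.rev i))) g := by
    unfold ee
    rw [MvPolynomial.esymmAlgHom_apply]
    have h5 : (MvPolynomial.aeval x).comp (MvPolynomial.aeval
        (fun i : Fin n => MvPolynomial.esymm (Fin n) K ((i : ℕ) + 1))) =
        MvPolynomial.aeval (fun i : Fin n => ((-1) ^ ((i : ℕ) + 1) * c (Fin.rev i))) := by
      ext i
      rw [AlgHom.comp_apply, MvPolynomial.aeval_X, MvPolynomial.aeval_X]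
      exact vieta x c hx i
    have h6 := congrArg (fun f => f g) h5
    simp only [AlgHom.comp_apply] at h6
    rw [h6]
    rw [MvPolynomial.aeval_eq_eval]
  rw [← h3, ← h2, h4]

theorem map_ee {L K : Type} [Field L] [Field K] (φ : L →+* K) {n : ℕ}
    (g : MvPolynomial (Fin n) L) : MvPolynomial.map φ (ee g) = ee (MvPolynomial.map φ g) := by
  unfold ee
  rw [MvPolynomial.esymmAlgHom_apply, MvPolynomial.esymmAlgHom_apply]
  induction g using MvPolynomial.induction_on with
  | C a => simp
  | add p q hp hq => rw [map_add, map_add, map_add, map_add, hp, hq]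
  | mul_X p i hp =>
    rw [map_mul, map_mul, map_mul, map_mul, hp, MvPolynomial.map_X, MvPolynomial.aeval_X,
      MvPolynomial.aeval_X, MvPolynomial.map_esymm]

theorem map_mat {L K : Type} [Field L] [Field K] (φ : L →+* K) {n : ℕ}
    (M : Matrix (Fin n) (Fin n) L) (R : L[X]) :
    φ.mapMatrix (aeval M R) = aeval (φ.mapMatrix M) (R.map φ) := by
  rw [Polynomial.aeval_def, Polynomial.hom_eval₂, Polynomial.aeval_def, Polynomial.eval₂_map]
  congr 1
  refine RingHom.ext fun a => ?_
  rw [RingHom.comp_apply, RingHom.comp_apply, Matrix.algebraMap_eq_diagonal,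
    Matrix.algebraMap_eq_diagonal, RingHom.mapMatrix_apply]
  ext i j
  simp [Matrix.diagonal_apply]
  split_ifs <;> simp

theorem ta10 : S_TA10 := by
  intro k L _ _ _ _ n R
  classical
  obtain ⟨g, hg⟩ := (MvPolynomial.esymmAlgHom_fin_bijective L n).2 ⟨PR n R, PR_symm n R⟩
  have hg' : ee g = PR n R := congrArg Subtype.val hg
  refine ⟨g, hg', ?_, fun c => ?_⟩
  · rcases n with _ | m
    · rw [MvPolynomial.totalDegree]
      refine Finset.sup_le fun s _ => ?_
      rw [Subsingleton.elim s 0]
      simp
    · apply deg_ee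
      rw [hg']
      exact deg_PR R 0
  · -- pass to the algebraic closure
    apply (algebraMap L (AlgebraicClosure L)).injective
    set φ := algebraMap L (AlgebraicClosure L) with hφ
    have hmap : ee (MvPolynomial.map φ g) = PR n (R.map φ) := by
      have h2 : MvPolynomial.map φ (PR n R) = PR n (R.map φ) := by
        unfold PR
        rw [map_prod]
        apply Finset.prod_congr rfl
        intro j _
        rw [Polynomial.aeval_def, Polynomial.hom_eval₂, Polynomial.aeval_def, Polynomial.eval₂_map]
        congr 1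
        · refine RingHom.ext fun a => ?_
          simp [MvPolynomial.algebraMap_eq]
        · simp
      rw [← map_ee, hg', h2]
    have h3 := res_closed (K := AlgebraicClosure L) (fun i => φ (algebraMap k L (c i))) (R.map φ)
      (MvPolynomial.map φ g) hmap
    have h4 : φ (MvPolynomial.eval (fun i : Fin n =>
        algebraMap k L ((-1) ^ ((i : ℕ) + 1) * c (Fin.rev i))) g) =
        MvPolynomial.eval (fun i : Fin n =>
          ((-1) ^ ((i : ℕ) + 1) * φ (algebraMap k L (c (Fin.rev i))))) (MvPolynomial.map φ g) := by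
      rw [MvPolynomial.eval_map, MvPolynomial.eval₂_comp]
      congr 1
      funext i
      simp
    rw [h4, ← h3]
    unfold RES
    have h5 : φ.mapMatrix ((Pool.Agent.W345.GK.comp c).map (algebraMap k L)) =
        Pool.Agent.W345.GK.comp (fun i => φ (algebraMap k L (c i))) := by
      ext i j
      rw [map_comp, RingHom.mapMatrix_apply, Matrix.map_apply]
      unfold Pool.Agent.W345.GK.comp
      split_ifs <;> simp
    rw [RingHom.map_det, map_mat, h5]

end Pool.Agent.W236.GK
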