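import Pool.Agent.W345.GK.TF

set_option autoImplicit false

open Polynomial Finset

namespace Pool.Agent.W236.GK

open Pool.Agent.W345.GK

/-- `PR n R` is symmetric -/
theorem PR_symm {L : Type} [Field L] (n : ℕ) (R : L[X]) : (PR n R).IsSymmetric := by
  intro e
  unfold PR
  rw [map_prod]
  have h : ∀ l : Fin n, MvPolynomial.rename e
      (aeval (MvPolynomial.X l : MvPolynomial (Fin n) L) R) =
      aeval (MvPolynomial.X (e l) : MvPolynomial (Fin n) L) R := by
    intro l
    rw [← Polynomial.aeval_algHom_apply, MvPolynomial.rename_X]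
  simp_rw [h]
  exact Equiv.prod_comp e (fun l => aeval (MvPolynomial.X l : MvPolynomial (Fin n) L) R)

theorem deg_aeval {L : Type} [Field L] {n : ℕ} (R : L[X]) (i l : Fin n) :
    MvPolynomial.degreeOf i (aeval (MvPolynomial.X l : MvPolynomial (Fin n) L) R) ≤
      if i = l then R.natDegree else 0 := by
  classical
  rw [aeval_eq_sum_range]
  refine (MvPolynomial.degreeOf_sum_le _ _ _).trans (Finset.sup_le fun j hj => ?_)
  rw [Finset.mem_range] at hj
  rw [MvPolynomial.smul_eq_C_mul]
  refine (MvPolynomial.degreeOf_C_mul_le _ _ _).trans ?_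
  refine (MvPolynomial.degreeOf_pow_le _ _ _).trans ?_
  rw [MvPolynomial.degreeOf_X]
  split_ifs
  · omega
  · omega

theorem deg_PR {L : Type} [Field L] {n : ℕ} (R : L[X]) (i : Fin n) :
    MvPolynomial.degreeOf i (PR n R) ≤ R.natDegree := by
  classical
  unfold PR
  refine (MvPolynomial.degreeOf_prod_le _ _ _).trans ?_
  refine (Finset.sum_le_sum fun l _ => deg_aeval R i l).trans ?_
  rw [Finset.sum_ite_eq Finset.univ i]
  simp

/-- the total degree of `g` is the degree in the first variable of `ee g` -/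
theorem deg_ee {L : Type} [Field L] {m : ℕ} (g : MvPolynomial (Fin (m + 1)) L) (N : ℕ)
    (h : MvPolynomial.degreeOf 0 (ee g) ≤ N) : g.totalDegree ≤ N := by
  classical
  by_cases hg : g = 0
  · rw [hg]; simp
  have hsum : ee g = ∑ t ∈ g.support, MvPolynomial.esymmAlgHomMonomial (Fin (m + 1)) t
      (g.coeff t) := by
    unfold ee
    conv_lhs => rw [g.as_sum]
    rw [map_sum, AddSubmonoidClass.coe_finsetSum]
    rfl
  have hcoef : ∀ t ∈ g.support, g.coeff t ≠ 0 := fun t ht => MvPolynomial.mem_support_iff.1 ht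
  have hsd : ∀ t ∈ g.support, AddMonoidAlgebra.supDegree toLex
      (MvPolynomial.esymmAlgHomMonomial (Fin (m + 1)) t (g.coeff t)) =
      toLex (Finsupp.equivFunOnFinite.symm (Fin.accumulate (m + 1) (m + 1) t)) := by
    intro t ht
    rw [← ofLex_inj, DFunLike.ext'_iff, MvPolynomial.supDegree_esymmAlgHomMonomial (hcoef t ht) t
      le_rfl]
    rfl
  obtain ⟨t, ht, hmax⟩ := Finset.exists_max_image g.support (fun t =>
    toLex (Finsupp.equivFunOnFinite.symm (Fin.accumulate (m + 1) (m + 1) t)))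
    (MvPolynomial.support_nonempty.2 hg)
  have hinj : ∀ t' ∈ g.support, t' ≠ t →
      toLex (Finsupp.equivFunOnFinite.symm (Fin.accumulate (m + 1) (m + 1) t')) ≠
      toLex (Finsupp.equivFunOnFinite.symm (Fin.accumulate (m + 1) (m + 1) t)) := by
    intro t' _ hne he
    apply hne
    have h1 := Finsupp.equivFunOnFinite.symm.injective (toLex.injective he)
    exact DFunLike.ext' (Fin.accumulate_injective le_rfl h1)
  have hlead := (AddMonoidAlgebra.supDegree_leadingCoeff_sum_eq (D := toLex) ht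
    (f := fun t => MvPolynomial.esymmAlgHomMonomial (Fin (m + 1)) t (g.coeff t)) (by
      intro t' ht' hne
      rw [hsd t' ht', hsd t ht]
      exact lt_of_le_of_ne (hmax t' ht') (hinj t' ht' hne))).1
  rw [← hsum, hsd t ht] at hlead
  have hne : ee g ≠ 0 := by
    intro h0
    have h1 : MvPolynomial.esymmAlgHom (Fin (m + 1)) L (m + 1) g = 0 := Subtype.ext h0
    exact hg ((MvPolynomial.esymmAlgHom_fin_injective L le_rfl) (by rw [h1, map_zero]))
  obtain ⟨a, ha, ha2⟩ := AddMonoidAlgebra.exists_supDegree_mem_support (D := toLex) hne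
  rw [hlead] at ha2
  have ha3 : a = Finsupp.equivFunOnFinite.symm (Fin.accumulate (m + 1) (m + 1) t) :=
    (toLex.injective ha2).symm
  have hacc : ∀ s : Fin (m + 1) →₀ ℕ, (Fin.accumulate (m + 1) (m + 1) s) 0 = ∑ i, s i := by
    intro s
    rw [Fin.accumulate_apply]
    apply Finset.sum_congr _ (fun _ _ => rfl)
    ext i
    simp
  have hle : ∑ i, t i ≤ N := by
    have h1 : a ∈ (ee g).support := ha
    have h2 := MvPolynomial.monomial_le_degreeOf 0 h1
    rw [ha3] at h2
    have h3 : (Finsupp.equivFunOnFinite.symm (Fin.accumulate (m + 1) (m + 1) t) :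
      Fin (m + 1) →₀ ℕ) 0 = ∑ i, t i := hacc t
    rw [h3] at h2
    exact h2.trans h
  unfold MvPolynomial.totalDegree
  refine Finset.sup_le fun s hs => ?_
  rw [Finsupp.sum_fintype _ _ (fun _ => rfl)]
  refine le_trans ?_ hle
  have h4 := hmax s hs
  rw [← hacc s, ← hacc t]
  rcases h4.lt_or_eq with h5 | h5
  · rw [Finsupp.Lex.lt_iff] at h5
    obtain ⟨i, hi1, hi2⟩ := h5
    rcases Fin.eq_zero_or_eq_succ i with rfl | ⟨j, rfl⟩
    · exact hi2.le
    · exact (hi1 0 (Fin.succ_pos j)).le
  · have h6 := Finsupp.equivFunOnFinite.symm.injective (toLex.injective h5)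
    exact (congrFun h6 0).le

end Pool.Agent.W236.GK
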